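import Pool.Agent.Q100.Bm.Comb

/-!
# Sequential closure of the singular finitely additive measures
-/

set_option autoImplicit false
open Filter Topology Set

noncomputable section

open scoped Classical

namespace Q100.Bm

theorem dens_zero {A : Set D} {i : I} (h : ∀ c, (⟨i.1, i.2, c⟩ : D) ∉ A) : dens A i = 0 := by
  refine le_antisymm ?_ (dens_nonneg _ _)
  rw [← dens_empty i]
  exact dens_mono fun c hc => absurd hc (h c)

/-- Blocks with small first index. -/
def Dlt (N : ℕ) : Set D := {x | x.1 < N}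

/-- Blocks with first index between `a` and `b`. -/
def Dint (a b : ℕ) : Set D := {x | a ≤ x.1 ∧ x.1 < b}

/-- Blocks with large first index. -/
def Dge (N : ℕ) : Set D := {x | N ≤ x.1}

theorem mem_of_bdd {A : Set D} (N : ℕ) (h : ∀ x ∈ A, x.1 < N) : A ∈ Alg := by
  refine small_mem fun ε hε => ?_
  filter_upwards [eventually_FF_of_atTop (eventually_ge_atTop N)] with i hi
  rw [dens_zero]
  · exact hε.le
  · intro c hc
    exact absurd (h _ hc) (not_lt.2 hi)

theorem Dlt_mem (N : ℕ) : Dlt N ∈ Alg := mem_of_bdd N fun _ h => h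

theorem Dint_mem (a b : ℕ) : Dint a b ∈ Alg := mem_of_bdd b fun _ h => h.2

theorem Dge_mem (N : ℕ) : Dge N ∈ Alg := by
  have : Dge N = (Dlt N)ᶜ := by ext x; simp [Dge, Dlt]
  rw [this]; exact compl_mem (Dlt_mem N)

/-- Nonnegative finitely additive set functions on the algebra. -/
structure FA (ν : Set D → ℝ) : Prop where
  nonneg : ∀ A ∈ Alg, 0 ≤ ν A
  add : ∀ A ∈ Alg, ∀ B ∈ Alg, Disjoint A B → ν (A ∪ B) = ν A + ν B

/-- Singularity. -/
def Sing (ν : Set D → ℝ) : Prop :=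
  ∀ ε : ℝ, 0 < ε → ∃ A ∈ Alg, (∀ᶠ i in FF, dens A i ≤ ε) ∧ ν Aᶜ ≤ ε

namespace FA

variable {ν : Set D → ℝ}

theorem mono (h : FA ν) {A B : Set D} (hA : A ∈ Alg) (hB : B ∈ Alg) (hAB : A ⊆ B) : ν A ≤ ν B := by
  have h1 := h.add A hA (B \ A) (diff_mem hB hA) disjoint_sdiff_right
  rw [Set.union_diff_cancel hAB] at h1
  have h2 := h.nonneg _ (diff_mem hB hA)
  linarith

theorem empty (h : FA ν) : ν ∅ = 0 := by
  have h1 := h.add ∅ empty_mem ∅ empty_mem (Set.disjoint_empty _)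
  rw [Set.union_empty] at h1
  linarith

theorem le_add (h : FA ν) {A B C : Set D} (hA : A ∈ Alg) (hB : B ∈ Alg) (hC : C ∈ Alg)
    (hAB : A ⊆ B ∪ C) : ν A ≤ ν B + ν C := by
  have h1 := h.add B hB (C \ B) (diff_mem hC hB) disjoint_sdiff_right
  rw [Set.union_diff_self] at h1
  have h2 := h.mono hA (union_mem hB hC) hAB
  have h3 := h.mono (diff_mem hC hB) hC Set.diff_subset
  linarith

theorem add_le (h : FA ν) {A B C : Set D} (hA : A ∈ Alg) (hB : B ∈ Alg) (hC : C ∈ Alg)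
    (hd : Disjoint B C) (hAB : B ∪ C ⊆ A) : ν B + ν C ≤ ν A := by
  rw [← h.add B hB C hC hd]
  exact h.mono (union_mem hB hC) hA hAB

theorem point_mem (x : D) : ({x} : Set D) ∈ Alg :=
  mem_of_bdd (x.1 + 1) fun y hy => by rw [Set.mem_singleton_iff.1 hy]; omega

theorem finset_mem (s : Finset D) : (s : Set D) ∈ Alg := by
  induction s using Finset.induction_on with
  | empty => simpa using empty_mem
  | insert a s _ ih =>
    rw [Finset.coe_insert, Set.insert_eq]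
    exact union_mem (point_mem a) ih

theorem sum_finset (h : FA ν) (s : Finset D) : ν s = ∑ x ∈ s, ν {x} := by
  induction s using Finset.induction_on with
  | empty => simpa using h.empty
  | insert a s ha ih =>
    rw [Finset.coe_insert, Set.insert_eq, h.add _ (point_mem a) _ (finset_mem s)
      (by rw [Set.disjoint_singleton_left]; exact_mod_cast ha), Finset.sum_insert ha, ih]

theorem sum_block (h : FA ν) (n : ℕ) (S : Set D) (hS : ∀ x ∈ S, x.1 = n) :
    ν S = ∑ y : Om n × Fin (2 ^ n), if (⟨n, y⟩ : D) ∈ S then ν {(⟨n, y⟩ : D)} else 0 := by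
  have h1 : S = (((Finset.univ.filter fun y : Om n × Fin (2 ^ n) => (⟨n, y⟩ : D) ∈ S).image
      (Sigma.mk n) : Finset D) : Set D) := by
    ext x
    simp only [Finset.coe_image, Finset.coe_filter, Finset.mem_univ, true_and, Set.mem_image,
      Set.mem_setOf_eq]
    constructor
    · intro hx
      obtain ⟨m, y⟩ := x
      obtain rfl : m = n := hS _ hx
      exact ⟨y, hx, rfl⟩
    · rintro ⟨y, hy, rfl⟩
      exact hy
  conv_lhs => rw [h1]
  rw [h.sum_finset, Finset.sum_image (fun a _ b _ hab => by simpa using hab), Finset.sum_filter]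

/-- Some point of `Fin (n + 1)` captures half of the mass of a block. -/
theorem capture (h : FA ν) (n : ℕ) {B : Set D} (hB : B ∈ Alg) : ∃ x : Fin (n + 1),
    ν (Dint n (n + 1) \ B) ≤
      2 * ν ({y : D | ∃ z : Om n × Fin (2 ^ n), y = ⟨n, z⟩ ∧ x ∈ z.1.1} \ B) := by
  set w : Om n × Fin (2 ^ n) → ℝ := fun y => if (⟨n, y⟩ : D) ∈ B then 0 else ν {(⟨n, y⟩ : D)}
    with hw
  have hw0 : ∀ y, 0 ≤ w y := by
    intro y
    simp only [hw]
    split_ifs
    · exact le_rfl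
    · exact h.nonneg _ (point_mem _)
  have h1 : ν (Dint n (n + 1) \ B) = ∑ y, w y := by
    rw [h.sum_block n _ (fun x hx => by
      have := hx.1; simp only [Dint, Set.mem_setOf_eq] at this; omega)]
    refine Finset.sum_congr rfl fun y _ => ?_
    simp only [hw, Set.mem_diff, Dint, Set.mem_setOf_eq, le_refl, Nat.lt_succ_self, true_and,
      and_self]
    by_cases hy : (⟨n, y⟩ : D) ∈ B <;> simp [hy]
  have h2 : ∀ x : Fin (n + 1),
      ν ({y : D | ∃ z : Om n × Fin (2 ^ n), y = ⟨n, z⟩ ∧ x ∈ z.1.1} \ B) =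
        ∑ y, if x ∈ y.1.1 then w y else 0 := by
    intro x
    rw [h.sum_block n _ (fun y hy => by
      obtain ⟨⟨z, rfl, _⟩, _⟩ := hy; rfl)]
    refine Finset.sum_congr rfl fun y _ => ?_
    have h3 : ((⟨n, y⟩ : D) ∈ {y : D | ∃ z : Om n × Fin (2 ^ n), y = ⟨n, z⟩ ∧ x ∈ z.1.1} \ B) ↔
        x ∈ y.1.1 ∧ (⟨n, y⟩ : D) ∉ B := by
      constructor
      · rintro ⟨⟨z, hz, hx⟩, hy⟩
        obtain rfl : y = z := by simpa using hz
        exact ⟨hx, hy⟩
      · rintro ⟨hx, hy⟩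
        exact ⟨⟨y, rfl, hx⟩, hy⟩
    simp only [h3, hw]
    by_cases hx : x ∈ y.1.1 <;> by_cases hy : (⟨n, y⟩ : D) ∈ B <;> simp [hx, hy]
  by_contra hcon
  push Not at hcon
  have h4 : ∑ x : Fin (n + 1), 2 * (∑ y, if x ∈ y.1.1 then w y else 0) <
      ∑ _x : Fin (n + 1), ∑ y, w y := by
    refine Finset.sum_lt_sum_of_nonempty Finset.univ_nonempty fun x _ => ?_
    have := hcon x
    rw [h1, h2 x] at this
    exact this
  rw [Finset.sum_const, Finset.card_univ, Fintype.card_fin, ← Finset.mul_sum,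
    Finset.sum_comm, nsmul_eq_mul, Finset.mul_sum, Finset.mul_sum] at h4
  refine absurd h4 (not_lt.2 (Finset.sum_le_sum fun y _ => ?_))
  rw [← Finset.sum_filter, Finset.sum_const, nsmul_eq_mul]
  have h5 : (Finset.univ.filter fun x => x ∈ y.1.1) = y.1.1 := by ext; simp
  rw [h5]
  have h6 : ((n + 1 : ℕ) : ℝ) ≤ 2 * (y.1.1.card : ℝ) := by exact_mod_cast y.1.2
  nlinarith [hw0 y]

end FA

theorem geom_le (R r : ℕ) : ∑ l ∈ Finset.Ico R r, (1 : ℝ) / 2 ^ (l + 2) ≤ 1 / 2 ^ (R + 1) := by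
  rcases le_total r R with h | h
  · rw [Finset.Ico_eq_empty_of_le h, Finset.sum_empty]; positivity
  · obtain ⟨k, rfl⟩ := Nat.exists_eq_add_of_le h
    have : ∀ k : ℕ, ∑ l ∈ Finset.Ico R (R + k), (1 : ℝ) / 2 ^ (l + 2) =
        1 / 2 ^ (R + 1) - 1 / 2 ^ (R + k + 1) := by
      intro k
      induction k with
      | zero => simp
      | succ k ih =>
        rw [← add_assoc, Finset.sum_Ico_succ_top (by omega), ih]
        field_simp
        ring
    rw [this]
    have : (0 : ℝ) < 1 / 2 ^ (R + k + 1) := by positivity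
    linarith

theorem key (ν : ℕ → Set D → ℝ) (ν' : Set D → ℝ) (h : ∀ j, FA (ν j))
    (hs : ∀ j, Sing (ν j))
    (hlim : ∀ A ∈ Alg, Tendsto (fun j => ν j A) atTop (𝓝 (ν' A))) (B : Set D) (hB : B ∈ Alg)
    (ε δ : ℝ) (hε : 0 < ε) (hδ : 0 < δ) (hfin : ∀ N, ν' (Dlt N \ B) ≤ 2 * ε) :
    ∃ A ∈ Alg, (∀ᶠ i in FF, dens A i ≤ δ) ∧ ν' Bᶜ - 5 * ε ≤ 2 * ν' (A \ B) := by
  -- the indices
  have hJ : ∀ N : ℕ, ∃ j, N ≤ j ∧ ν j (Dlt N \ B) ≤ 3 * ε ∧ ν' Bᶜ - ε ≤ ν j Bᶜ := by
    intro N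
    have h1 := hlim _ (diff_mem (Dlt_mem N) hB)
    have h2 := hlim _ (compl_mem hB)
    have h3 : ∀ᶠ j in atTop, ν j (Dlt N \ B) < 3 * ε :=
      h1.eventually_lt_const (by have := hfin N; linarith)
    have h4 : ∀ᶠ j in atTop, ν' Bᶜ - ε < ν j Bᶜ := h2.eventually_const_lt (by linarith)
    obtain ⟨j, h5, h6, h7⟩ := ((eventually_ge_atTop N).and (h3.and h4)).exists
    exact ⟨j, h5, h6.le, h7.le⟩
  choose J hJN hJ1 hJ2 using hJ
  -- the sets
  have hA : ∀ N : ℕ, ∃ A ∈ Alg, (∀ᶠ i in FF, dens A i ≤ δ * (1 / 2 ^ (N + 2))) ∧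
      ν (J N) Aᶜ ≤ ε := by
    intro N
    obtain ⟨A, hA, h1, h2⟩ := hs (J N) (min ε (δ * (1 / 2 ^ (N + 2)))) (by positivity)
    refine ⟨A, hA, ?_, h2.trans (min_le_left _ _)⟩
    filter_upwards [h1] with i hi
    exact hi.trans (min_le_right _ _)
  choose 𝒜 h𝒜 h𝒜1 h𝒜2 using hA
  -- the thresholds
  have hH : ∀ N : ℕ, ∃ H, N < H ∧ ∀ n, H ≤ n → ∀ M, M ≤ N → ∃ X : Finset (Fin (n + 1)),
      (X.card : ℝ) ≤ 1 / 4 ^ N * (n + 1) ∧ ∀ C : Om n, Disjoint C.1 X →
        dens (𝒜 M) ⟨n, C⟩ ≤ δ * (1 / 2 ^ (M + 2)) := by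
    intro N
    have h1 : ∀ᶠ n : ℕ in atTop, ∀ M ∈ Finset.range (N + 1), ∃ X : Finset (Fin (n + 1)),
      (X.card : ℝ) ≤ 1 / 4 ^ N * (n + 1) ∧ ∀ C : Om n, Disjoint C.1 X →
        dens (𝒜 M) ⟨n, C⟩ ≤ δ * (1 / 2 ^ (M + 2)) := by
      rw [Filter.eventually_all_finset]
      intro M _
      exact eventually_FF.1 (h𝒜1 M) (1 / 4 ^ N) (by positivity)
    obtain ⟨H, hH⟩ := eventually_atTop.1 h1
    refine ⟨max H (N + 1), by omega, fun n hn M hM => hH n (le_of_max_le_left hn) M ?_⟩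
    rw [Finset.mem_range]; omega
  choose H hHN hH using hH
  set Nn : ℕ → ℕ := fun r => H^[r] 0 with hNn
  have hN0 : Nn 0 = 0 := rfl
  have hNs : ∀ r, Nn (r + 1) = H (Nn r) := fun r => Function.iterate_succ_apply' H r 0
  have hNmono : StrictMono Nn := strictMono_nat_of_lt_succ fun r => by rw [hNs]; exact hHN _
  have hNid : ∀ r, r ≤ Nn r := hNmono.id_le
  -- the position of n
  have hrr : ∀ n : ℕ, ∃ r, Nn r ≤ n ∧ n < Nn (r + 1) := by
    intro n
    induction n with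
    | zero => exact ⟨0, by rw [hN0], by have := hNmono (show 0 < 0 + 1 by omega); omega⟩
    | succ n ih =>
      obtain ⟨r, h1, h2⟩ := ih
      rcases Nat.lt_or_ge (n + 1) (Nn (r + 1)) with h3 | h3
      · exact ⟨r, by omega, h3⟩
      · exact ⟨r + 1, h3, by have := hNmono (show r + 1 < r + 1 + 1 by omega); omega⟩
  choose rr hr1 hr2 using hrr
  have hruniq : ∀ n r, Nn r ≤ n → n < Nn (r + 1) → rr n = r := by
    intro n r h1 h2
    rcases lt_trichotomy (rr n) r with h3 | h3 | h3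
    · have := hNmono.monotone (show rr n + 1 ≤ r by omega)
      have := hr2 n; omega
    · exact h3
    · have := hNmono.monotone (show r + 1 ≤ rr n by omega)
      have := hr1 n; omega
  -- the capturing points
  have hx : ∀ n : ℕ, ∃ x : Fin (n + 1), ν (J (Nn (rr n))) (Dint n (n + 1) \ B) ≤
      2 * ν (J (Nn (rr n))) ({y : D | ∃ z : Om n × Fin (2 ^ n), y = ⟨n, z⟩ ∧ x ∈ z.1.1} \ B) :=
    fun n => (h _).capture n hB
  choose x hx using hx
  set E : Set D := {y | x y.1 ∈ y.2.1.1} with hE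
  set PR : ℕ → Set D := fun R => {y | ∃ r, R ≤ r ∧ Nn (r + 1) ≤ y.1 ∧ y ∈ 𝒜 (Nn r)} with hPR
  have htail : ∀ R, ∀ᶠ i in FF, dens (PR R) i ≤ δ * (1 / 2 ^ (R + 1)) := by
    intro R
    rw [eventually_FF]
    intro τ hτ
    obtain ⟨r₀, hr₀⟩ := exists_pow_lt_of_lt_one hτ (show (1 / 2 : ℝ) < 1 by norm_num)
    filter_upwards [eventually_ge_atTop (Nn (r₀ + 1))] with n hn
    have h1 : r₀ + 1 ≤ rr n := by
      by_contra hcon
      have := hNmono.monotone (show rr n + 1 ≤ r₀ + 1 by omega)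
      have := hr2 n
      omega
    obtain ⟨q, hq⟩ : ∃ q, rr n = q + 1 := ⟨rr n - 1, by omega⟩
    have h2 : H (Nn q) ≤ n := by rw [← hNs, ← hq]; exact hr1 n
    have h3 : ∀ l : ℕ, ∃ X : Finset (Fin (n + 1)), (X.card : ℝ) ≤ 1 / 4 ^ (Nn q) * (n + 1) ∧
        (l ≤ q → ∀ C : Om n, Disjoint C.1 X →
          dens (𝒜 (Nn l)) ⟨n, C⟩ ≤ δ * (1 / 2 ^ (Nn l + 2))) := by
      intro l
      by_cases hl : l ≤ q
      · obtain ⟨X, h4, h5⟩ := hH (Nn q) n h2 (Nn l) (hNmono.monotone hl)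
        exact ⟨X, h4, fun _ => h5⟩
      · exact ⟨∅, by simp; positivity, fun h => absurd h hl⟩
    choose X hX1 hX2 using h3
    refine ⟨(Finset.range (q + 1)).biUnion X, ?_, ?_⟩
    · have h4 : (((Finset.range (q + 1)).biUnion X).card : ℝ) ≤
          ∑ l ∈ Finset.range (q + 1), ((X l).card : ℝ) := by
        exact_mod_cast Finset.card_biUnion_le
      have h5 : ∑ l ∈ Finset.range (q + 1), ((X l).card : ℝ) ≤
          ∑ _l ∈ Finset.range (q + 1), (1 / 4 ^ (Nn q) * ((n : ℝ) + 1)) :=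
        Finset.sum_le_sum fun l _ => hX1 l
      rw [Finset.sum_const, Finset.card_range, nsmul_eq_mul] at h5
      have h6 : ((q + 1 : ℕ) : ℝ) ≤ 2 ^ (Nn q) := by
        have h7 : q + 1 ≤ Nn q + 1 := by have := hNid q; omega
        have h8 : Nn q + 1 ≤ 2 ^ (Nn q) := Nat.lt_two_pow_self
        exact_mod_cast h7.trans h8
      have h9 : (1 / 2 : ℝ) ^ (Nn q) ≤ τ := by
        refine le_trans ?_ hr₀.le
        exact pow_le_pow_of_le_one (by norm_num) (by norm_num) (by have := hNid q; omega)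
      calc (((Finset.range (q + 1)).biUnion X).card : ℝ)
          ≤ ((q + 1 : ℕ) : ℝ) * (1 / 4 ^ (Nn q) * ((n : ℝ) + 1)) := h4.trans h5
        _ ≤ 2 ^ (Nn q) * (1 / 4 ^ (Nn q) * ((n : ℝ) + 1)) := by gcongr
        _ = (1 / 2 : ℝ) ^ (Nn q) * ((n : ℝ) + 1) := by
            have : (4 : ℝ) ^ (Nn q) = 2 ^ (Nn q) * 2 ^ (Nn q) := by
              rw [← mul_pow]; norm_num
            rw [this, div_pow, one_pow]
            field_simp
        _ ≤ τ * (n + 1) := by gcongr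
    · intro C hC
      have h4 : dens (PR R) ⟨n, C⟩ ≤ ∑ l ∈ Finset.Ico R (rr n), dens (𝒜 (Nn l)) ⟨n, C⟩ := by
        refine dens_le_sum (i := (⟨n, C⟩ : I)) _ _ fun c hc => ?_
        obtain ⟨l, hl, hl1, hl2⟩ := hc
        refine ⟨l, Finset.mem_Ico.2 ⟨hl, ?_⟩, hl2⟩
        by_contra hcon
        have h5 := hNmono.monotone (show rr n + 1 ≤ l + 1 by omega)
        have h6 := hr2 n
        simp only at hl1
        omega
      refine h4.trans ?_
      calc ∑ l ∈ Finset.Ico R (rr n), dens (𝒜 (Nn l)) ⟨n, C⟩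
          ≤ ∑ l ∈ Finset.Ico R (rr n), δ * (1 / 2 ^ (l + 2)) := by
            refine Finset.sum_le_sum fun l hl => ?_
            have hlq : l ≤ q := by have := (Finset.mem_Ico.1 hl).2; omega
            refine (hX2 l hlq C (hC.mono_right ?_)).trans ?_
            · exact Finset.subset_biUnion_of_mem X (Finset.mem_range.2 (by omega))
            · have h7 : (2 : ℝ) ^ (l + 2) ≤ 2 ^ (Nn l + 2) :=
                pow_le_pow_right₀ (by norm_num) (by have := hNid l; omega)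
              gcongr
        _ ≤ δ * (1 / 2 ^ (R + 1)) := by
            rw [← Finset.mul_sum]
            exact mul_le_mul_of_nonneg_left (geom_le _ _) hδ.le
  -- membership in the algebra
  have hQ : ∀ R, (⋃ l ∈ Finset.range R, 𝒜 (Nn l)) ∈ Alg := by
    intro R
    induction R with
    | zero => simpa using empty_mem
    | succ R ih =>
      rw [Finset.range_add_one, Finset.set_biUnion_insert]
      exact union_mem (h𝒜 _) ih
  have hP : PR 0 ∈ Alg := by
    intro ε' hε'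
    obtain ⟨R, hR⟩ := exists_pow_lt_of_lt_one (show 0 < ε' / (2 * δ) by positivity)
      (show (1 / 2 : ℝ) < 1 by norm_num)
    obtain ⟨m, G, hG⟩ := hQ R (ε' / 2) (by positivity)
    refine ⟨m, G, ?_⟩
    filter_upwards [hG, htail R, eventually_FF_of_atTop (eventually_ge_atTop (Nn R))] with i h1 h2 h3
    have h4 : δ * (1 / 2 ^ (R + 1)) ≤ ε' / 2 := by
      have h5 : (1 : ℝ) / 2 ^ (R + 1) ≤ (1 / 2) ^ R := by
        rw [div_pow, one_pow]
        exact one_div_le_one_div_of_le (by positivity)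
          (pow_le_pow_right₀ (by norm_num) (by omega))
      calc δ * (1 / 2 ^ (R + 1)) ≤ δ * (1 / 2) ^ R := by gcongr
        _ ≤ δ * (ε' / (2 * δ)) := by gcongr
        _ = ε' / 2 := by field_simp
    refine (dens_le_add (B := PR R)
      (C := symmDiff (⋃ l ∈ Finset.range R, 𝒜 (Nn l)) (Cyl m G)) ?_).trans (by linarith)
    intro c hc
    by_contra hcon
    push Not at hcon
    obtain ⟨h5, h6⟩ := hcon
    have h7 : (⟨i.1, i.2, c⟩ : D) ∈ PR 0 ↔
        (⟨i.1, i.2, c⟩ : D) ∈ (⋃ l ∈ Finset.range R, 𝒜 (Nn l)) := by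
      constructor
      · rintro ⟨r, _, hr3, hr4⟩
        by_cases hrR : R ≤ r
        · exact absurd ⟨r, hrR, hr3, hr4⟩ h5
        · exact Set.mem_biUnion (Finset.mem_coe.2 (Finset.mem_range.2 (by omega))) hr4
      · intro hm
        obtain ⟨l, hl, hm⟩ := Set.mem_iUnion₂.1 hm
        refine ⟨l, Nat.zero_le _, ?_, hm⟩
        have h8 := hNmono.monotone (show l + 1 ≤ R by have := Finset.mem_range.1 hl; omega)
        simp only at h3 ⊢
        omega
    apply h6
    rw [Set.mem_symmDiff] at hc ⊢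
    rw [← h7]
    exact hc
  have hEs : ∀ ε' : ℝ, 0 < ε' → ∀ᶠ i in FF, dens E i ≤ ε' := by
    intro ε' hε'
    rw [eventually_FF]
    intro τ hτ
    obtain ⟨n₀, hn₀⟩ := exists_nat_gt (1 / τ)
    filter_upwards [eventually_ge_atTop n₀] with n hn
    refine ⟨{x n}, ?_, ?_⟩
    · rw [Finset.card_singleton]
      have h1 : (n₀ : ℝ) ≤ n := by exact_mod_cast hn
      have h2 : 1 / τ < (n : ℝ) + 1 := by linarith
      rw [div_lt_iff₀ hτ] at h2
      push_cast
      linarith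
    · intro C hC
      rw [dens_zero]
      · exact hε'.le
      · intro c hc
        rw [Finset.disjoint_singleton_right] at hC
        exact hC hc
  have hEm : E ∈ Alg := small_mem hEs
  have hA : PR 0 ∪ E ∈ Alg := union_mem hP hEm
  refine ⟨PR 0 ∪ E, hA, ?_, ?_⟩
  · filter_upwards [htail 0, hEs (δ / 2) (by positivity)] with i h1 h2
    refine (dens_le_add (B := PR 0) (C := E) (fun c hc => hc)).trans ?_
    norm_num at h1
    linarith
  · -- the inequality
    have hmain : ∀ r, ν' Bᶜ - 5 * ε ≤ 2 * ν (J (Nn r)) ((PR 0 ∪ E) \ B) := by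
      intro r
      set ρ := ν (J (Nn r)) with hρ
      have hρA : FA ρ := h _
      have hcap : ∀ b, Nn r ≤ b → b ≤ Nn (r + 1) →
          ρ (Dint (Nn r) b \ B) ≤ 2 * ρ ((E ∩ Dint (Nn r) b) \ B) := by
        intro b hb
        induction b, hb using Nat.le_induction with
        | base =>
          intro _
          have h1 : Dint (Nn r) (Nn r) = ∅ := by
            ext y; simp only [Dint, Set.mem_setOf_eq, Set.mem_empty_iff_false, iff_false]; omega
          rw [h1, Set.inter_empty, Set.empty_diff, hρA.empty]; norm_num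
        | succ b hb ih =>
          intro hb2
          have h1 := ih (by omega)
          have h2 : rr b = r := hruniq b r hb (by omega)
          have h3 := hx b
          rw [h2] at h3
          have h4 : Dint (Nn r) (b + 1) \ B = (Dint (Nn r) b \ B) ∪ (Dint b (b + 1) \ B) := by
            ext y; simp only [Dint, Set.mem_diff, Set.mem_union, Set.mem_setOf_eq]
            by_cases hy : y ∈ B
            · simp [hy]
            · simp only [hy, not_false_eq_true, and_true]; omega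
          have h5 : (E ∩ Dint (Nn r) (b + 1)) \ B = ((E ∩ Dint (Nn r) b) \ B) ∪
              ({y : D | ∃ z : Om b × Fin (2 ^ b), y = ⟨b, z⟩ ∧ x b ∈ z.1.1} \ B) := by
            ext y
            simp only [Dint, Set.mem_diff, Set.mem_union, Set.mem_inter_iff, Set.mem_setOf_eq, hE]
            constructor
            · rintro ⟨⟨h6, h7, h8⟩, h9⟩
              rcases Nat.lt_succ_iff_lt_or_eq.1 h8 with h10 | h10
              · exact Or.inl ⟨⟨h6, h7, h10⟩, h9⟩
              · refine Or.inr ⟨?_, h9⟩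
                obtain ⟨m, z⟩ := y
                simp only at h10 h6
                subst h10
                exact ⟨z, rfl, h6⟩
            · rintro (⟨⟨h6, h7, h8⟩, h9⟩ | ⟨⟨z, rfl, h6⟩, h9⟩)
              · exact ⟨⟨h6, h7, by omega⟩, h9⟩
              · exact ⟨⟨h6, hb, by simp⟩, h9⟩
          have hm1 : {y : D | ∃ z : Om b × Fin (2 ^ b), y = ⟨b, z⟩ ∧ x b ∈ z.1.1} ∈ Alg :=
            mem_of_bdd (b + 1) (by rintro _ ⟨z, rfl, _⟩; simp)
          rw [h4, h5, hρA.add _ (diff_mem (Dint_mem _ _) hB) _ (diff_mem (Dint_mem _ _) hB) ?_,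
            hρA.add _ (diff_mem (inter_mem hEm (Dint_mem _ _)) hB) _ (diff_mem hm1 hB) ?_]
          · linarith
          · rw [Set.disjoint_left]
            rintro y ⟨⟨_, _, h6⟩, _⟩ ⟨⟨z, rfl, _⟩, _⟩
            simp at h6
          · rw [Set.disjoint_left]
            rintro y ⟨⟨_, h6⟩, _⟩ ⟨⟨h7, _⟩, _⟩
            omega
      have hc := hcap (Nn (r + 1)) (hNmono (Nat.lt_succ_self r)).le le_rfl
      have h1 : ρ Bᶜ ≤ ρ (Dlt (Nn r) \ B) + (ρ (Dint (Nn r) (Nn (r + 1)) \ B) +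
          ρ (Dge (Nn (r + 1)) \ B)) := by
        refine (hρA.le_add (compl_mem hB) (diff_mem (Dlt_mem (Nn r)) hB)
          (union_mem (diff_mem (Dint_mem (Nn r) (Nn (r + 1))) hB)
            (diff_mem (Dge_mem (Nn (r + 1))) hB)) ?_).trans
          (add_le_add_right (hρA.le_add (union_mem (diff_mem (Dint_mem (Nn r) (Nn (r + 1))) hB)
            (diff_mem (Dge_mem (Nn (r + 1))) hB)) (diff_mem (Dint_mem (Nn r) (Nn (r + 1))) hB)
            (diff_mem (Dge_mem (Nn (r + 1))) hB) subset_rfl) _)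
        intro y hy
        simp only [Dlt, Dint, Dge, Set.mem_union, Set.mem_diff, Set.mem_setOf_eq]
        have hy' : y ∉ B := hy
        simp only [hy', not_false_eq_true, and_true]
        omega
      have h2 : ρ (Dge (Nn (r + 1)) \ B) ≤ ρ ((Dge (Nn (r + 1)) ∩ 𝒜 (Nn r)) \ B) +
          ρ (𝒜 (Nn r))ᶜ := by
        refine hρA.le_add (diff_mem (Dge_mem _) hB)
          (diff_mem (inter_mem (Dge_mem _) (h𝒜 _)) hB) (compl_mem (h𝒜 _)) ?_
        intro y hy
        by_cases hyA : y ∈ 𝒜 (Nn r)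
        · exact Or.inl ⟨⟨hy.1, hyA⟩, hy.2⟩
        · exact Or.inr hyA
      have h3 : ρ ((E ∩ Dint (Nn r) (Nn (r + 1))) \ B) +
          ρ ((Dge (Nn (r + 1)) ∩ 𝒜 (Nn r)) \ B) ≤ ρ ((PR 0 ∪ E) \ B) := by
        refine hρA.add_le (diff_mem hA hB)
          (diff_mem (inter_mem hEm (Dint_mem _ _)) hB)
          (diff_mem (inter_mem (Dge_mem _) (h𝒜 _)) hB) ?_ ?_
        · rw [Set.disjoint_left]
          rintro y ⟨⟨_, _, h6⟩, _⟩ ⟨⟨h7, _⟩, _⟩
          exact absurd h6 (not_lt.2 h7)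
        · rintro y (⟨⟨h6, _⟩, h7⟩ | ⟨⟨h6, h8⟩, h7⟩)
          · exact ⟨Or.inr h6, h7⟩
          · exact ⟨Or.inl ⟨r, Nat.zero_le _, h6, h8⟩, h7⟩
      have h4 := hJ1 (Nn r)
      have h5 := hJ2 (Nn r)
      have h6 := h𝒜2 (Nn r)
      have h7 := hρA.nonneg _ (diff_mem (inter_mem (Dge_mem (Nn (r + 1))) (h𝒜 (Nn r))) hB)
      linarith
    have h1 : Tendsto (fun r => J (Nn r)) atTop atTop :=
      tendsto_atTop_mono (fun r => (hNid r).trans (hJN _)) tendsto_id
    have h2 := ((hlim _ (diff_mem hA hB)).comp h1).const_mul 2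
    exact ge_of_tendsto h2 (Eventually.of_forall hmain)

/-- Weak limits of singular sequences are singular. -/
theorem sing_limit (ν : ℕ → Set D → ℝ) (ν' : Set D → ℝ) (h : ∀ j, FA (ν j)) (h' : FA ν')
    (hs : ∀ j, Sing (ν j))
    (hlim : ∀ A ∈ Alg, Tendsto (fun j => ν j A) atTop (𝓝 (ν' A))) : Sing ν' := by
  by_contra hcon
  unfold Sing at hcon
  push Not at hcon
  obtain ⟨ε₀, hε₀, hcon⟩ := hcon
  set b : ℝ → ℝ := fun δ => sInf {t | ∃ B ∈ Alg, (∀ᶠ i in FF, dens B i ≤ δ) ∧ t = ν' Bᶜ} with hb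
  have hbdd : ∀ δ, BddBelow {t | ∃ B ∈ Alg, (∀ᶠ i in FF, dens B i ≤ δ) ∧ t = ν' Bᶜ} := by
    intro δ
    refine ⟨0, ?_⟩
    rintro t ⟨B, hB, _, rfl⟩
    exact h'.nonneg _ (compl_mem hB)
  have hne : ∀ δ, 0 < δ → {t | ∃ B ∈ Alg, (∀ᶠ i in FF, dens B i ≤ δ) ∧ t = ν' Bᶜ}.Nonempty := by
    intro δ hδ
    exact ⟨_, ∅, empty_mem, Eventually.of_forall fun i => by rw [dens_empty]; exact hδ.le, rfl⟩
  have hble : ∀ δ B, B ∈ Alg → (∀ᶠ i in FF, dens B i ≤ δ) → b δ ≤ ν' Bᶜ := fun δ B hB h1 =>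
    csInf_le (hbdd δ) ⟨B, hB, h1, rfl⟩
  have hanti : ∀ δ δ', 0 < δ → δ ≤ δ' → b δ' ≤ b δ := by
    intro δ δ' h0 h1
    refine csInf_le_csInf (hbdd δ') (hne δ h0) ?_
    rintro t ⟨B, hB, h2, rfl⟩
    exact ⟨B, hB, h2.mono fun i hi => hi.trans h1, rfl⟩
  set β : ℝ := sSup {t | ∃ δ, 0 < δ ∧ t = b δ} with hβ
  have hbs : BddAbove {t | ∃ δ, 0 < δ ∧ t = b δ} := by
    refine ⟨ν' (∅ : Set D)ᶜ, ?_⟩
    rintro t ⟨δ, hδ, rfl⟩
    exact hble δ ∅ empty_mem (Eventually.of_forall fun i => by rw [dens_empty]; exact hδ.le)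
  have hβpos : 0 < β := by
    refine lt_of_lt_of_le hε₀ (le_trans ?_ (le_csSup hbs ⟨ε₀, hε₀, rfl⟩))
    refine le_csInf (hne ε₀ hε₀) ?_
    rintro t ⟨B, hB, h1, rfl⟩
    exact (hcon B hB h1).le
  set ε : ℝ := β / 32 with hε
  have hεpos : 0 < ε := by positivity
  obtain ⟨t, ⟨δ₁, hδ₁, rfl⟩, ht⟩ := exists_lt_of_lt_csSup
    (⟨_, ε₀, hε₀, rfl⟩ : {t | ∃ δ, 0 < δ ∧ t = b δ}.Nonempty) (show β - ε < β by linarith)
  have hδ : 0 < δ₁ / 2 := by positivity
  have hb2 : b δ₁ ≤ b (δ₁ / 2) := hanti _ _ hδ (by linarith)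
  have hb3 : b (δ₁ / 2) ≤ β := le_csSup hbs ⟨_, hδ, rfl⟩
  obtain ⟨t, ⟨B, hB, hB1, rfl⟩, hB2⟩ := exists_lt_of_csInf_lt (hne (δ₁ / 2) hδ)
    (show b (δ₁ / 2) < β + ε by linarith)
  obtain ⟨A, hA, hA1, hA2⟩ := key ν ν' h hs hlim B hB ε (δ₁ / 2) hεpos hδ (by
    intro N
    have h1 : ∀ᶠ i in FF, dens (B ∪ Dlt N) i ≤ δ₁ / 2 := by
      filter_upwards [hB1, eventually_FF_of_atTop (eventually_ge_atTop N)] with i h1 h2
      refine (dens_mono ?_).trans h1
      rintro c (hc | hc)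
      · exact hc
      · exact absurd (show i.1 < N from hc) (not_lt.2 h2)
    have h2 := hble _ _ (union_mem hB (Dlt_mem N)) h1
    have h3 : ν' Bᶜ = ν' (B ∪ Dlt N)ᶜ + ν' (Dlt N \ B) := by
      rw [← h'.add _ (compl_mem (union_mem hB (Dlt_mem N))) _ (diff_mem (Dlt_mem N) hB)]
      · congr 1
        ext y
        simp only [Set.mem_compl_iff, Set.mem_union, Set.mem_diff]
        tauto
      · rw [Set.disjoint_left]
        intro y hy hy2
        exact hy (Or.inr hy2.1)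
    linarith)
  have h1 : ∀ᶠ i in FF, dens (B ∪ A) i ≤ δ₁ := by
    filter_upwards [hB1, hA1] with i h1 h2
    refine (dens_le_add (B := B) (C := A) fun c hc => hc).trans (by linarith)
  have h2 := hble _ _ (union_mem hB hA) h1
  have h3 : ν' Bᶜ = ν' (B ∪ A)ᶜ + ν' (A \ B) := by
    rw [← h'.add _ (compl_mem (union_mem hB hA)) _ (diff_mem hA hB)]
    · congr 1
      ext y
      simp only [Set.mem_compl_iff, Set.mem_union, Set.mem_diff]
      tauto
    · rw [Set.disjoint_left]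
      intro y hy hy2
      exact hy (Or.inr hy2.1)
  linarith

end Q100.Bm
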