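import Mathlib

/-!
# A countable set with a pathological filter of blocks, and an algebra of its subsets
-/

set_option autoImplicit false
open Filter Topology Set

noncomputable section

open scoped Classical

namespace Q100.Bm

/-- The subsets of `Fin (n + 1)` containing at least half of the elements. -/
abbrev Om (n : ℕ) : Type := {C : Finset (Fin (n + 1)) // n + 1 ≤ 2 * C.card}

/-- The index set of the blocks. -/
abbrev I : Type := Σ n : ℕ, Om n

/-- The countable set: the block with index `(n, C)` has `2 ^ n` elements. -/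
abbrev D : Type := Σ n : ℕ, Om n × Fin (2 ^ n)

/-- The mean of `f` over the block `i`. -/
def avg (f : D → ℝ) (i : I) : ℝ := (∑ c : Fin (2 ^ i.1), f ⟨i.1, i.2, c⟩) / 2 ^ i.1

/-- The indicator function. -/
def ind (A : Set D) : D → ℝ := A.indicator fun _ => 1

/-- The relative size of `A` in the block `i`. -/
def dens (A : Set D) (i : I) : ℝ := avg (ind A) i

theorem avg_add (f g : D → ℝ) (i : I) : avg (fun x => f x + g x) i = avg f i + avg g i := by
  unfold avg; rw [Finset.sum_add_distrib, add_div]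

theorem avg_mono {f g : D → ℝ} {i : I} (h : ∀ c, f ⟨i.1, i.2, c⟩ ≤ g ⟨i.1, i.2, c⟩) :
    avg f i ≤ avg g i := by
  unfold avg
  exact div_le_div_of_nonneg_right (Finset.sum_le_sum fun c _ => h c) (by positivity)

theorem avg_const (r : ℝ) (i : I) : avg (fun _ => r) i = r := by
  unfold avg
  rw [Finset.sum_const, Finset.card_univ, Fintype.card_fin, nsmul_eq_mul]
  push_cast
  field_simp

theorem avg_nonneg {f : D → ℝ} {i : I} (h : ∀ c, 0 ≤ f ⟨i.1, i.2, c⟩) : 0 ≤ avg f i := by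
  rw [← avg_const 0 i]; exact avg_mono h

theorem ind_nonneg (A : Set D) (x : D) : 0 ≤ ind A x := by
  unfold ind; exact Set.indicator_nonneg (fun _ _ => zero_le_one) _

theorem ind_le_one (A : Set D) (x : D) : ind A x ≤ 1 := by
  unfold ind; exact Set.indicator_le_self' (fun _ _ => zero_le_one) _

theorem ind_mem {A : Set D} {x : D} (h : x ∈ A) : ind A x = 1 := Set.indicator_of_mem h _

theorem ind_not_mem {A : Set D} {x : D} (h : x ∉ A) : ind A x = 0 := Set.indicator_of_notMem h _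

theorem dens_nonneg (A : Set D) (i : I) : 0 ≤ dens A i := avg_nonneg fun _ => ind_nonneg _ _

theorem dens_le_one (A : Set D) (i : I) : dens A i ≤ 1 := by
  unfold dens
  calc avg (ind A) i ≤ avg (fun _ => 1) i := avg_mono fun _ => ind_le_one _ _
    _ = 1 := avg_const _ _

/-- The size is subadditive, and only depends on the trace on the block. -/
theorem dens_le_sum {ι : Type*} {A : Set D} {i : I} (s : Finset ι) (F : ι → Set D)
    (h : ∀ c, (⟨i.1, i.2, c⟩ : D) ∈ A → ∃ l ∈ s, (⟨i.1, i.2, c⟩ : D) ∈ F l) :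
    dens A i ≤ ∑ l ∈ s, dens (F l) i := by
  have h1 : avg (fun x => ∑ l ∈ s, ind (F l) x) i = ∑ l ∈ s, dens (F l) i := by
    unfold dens avg
    rw [Finset.sum_comm, Finset.sum_div]
  rw [← h1]
  refine avg_mono fun c => ?_
  by_cases hc : (⟨i.1, i.2, c⟩ : D) ∈ A
  · obtain ⟨l, hl, hm⟩ := h c hc
    rw [ind_mem hc]
    calc (1 : ℝ) = ind (F l) ⟨i.1, i.2, c⟩ := (ind_mem hm).symm
      _ ≤ _ := Finset.single_le_sum (f := fun l => ind (F l) ⟨i.1, i.2, c⟩)
        (fun l _ => ind_nonneg _ _) hl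
  · rw [ind_not_mem hc]
    exact Finset.sum_nonneg fun l _ => ind_nonneg _ _

theorem dens_mono {A B : Set D} {i : I}
    (h : ∀ c, (⟨i.1, i.2, c⟩ : D) ∈ A → (⟨i.1, i.2, c⟩ : D) ∈ B) : dens A i ≤ dens B i := by
  have := dens_le_sum (i := i) (A := A) {()} (fun _ => B) (fun c hc => ⟨(), by simp, h c hc⟩)
  simpa using this

theorem dens_le_add {A B C : Set D} {i : I}
    (h : ∀ c, (⟨i.1, i.2, c⟩ : D) ∈ A → (⟨i.1, i.2, c⟩ : D) ∈ B ∨ (⟨i.1, i.2, c⟩ : D) ∈ C) :
    dens A i ≤ dens B i + dens C i := by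
  have := dens_le_sum (i := i) (A := A) (Finset.univ : Finset Bool) (fun b => if b then B else C)
    (fun c hc => by
      rcases h c hc with h | h
      · exact ⟨true, by simp, by simpa using h⟩
      · exact ⟨false, by simp, by simpa using h⟩)
  simpa using this

theorem dens_empty (i : I) : dens ∅ i = 0 := by
  refine le_antisymm ?_ (dens_nonneg _ _)
  have := dens_le_sum (i := i) (A := (∅ : Set D)) (∅ : Finset ℕ) (fun _ => ∅)
    (fun c hc => absurd hc (by simp))
  simpa using this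

/-- The filter of the index sets containing almost all blocks. -/
def FF : Filter I where
  sets := {F | ∀ τ : ℝ, 0 < τ → ∀ᶠ n : ℕ in atTop, ∃ X : Finset (Fin (n + 1)),
    (X.card : ℝ) ≤ τ * (n + 1) ∧ ∀ C : Om n, Disjoint C.1 X → (⟨n, C⟩ : I) ∈ F}
  univ_sets := fun τ hτ => Eventually.of_forall fun n => ⟨∅, by simp; positivity, fun _ _ => trivial⟩
  sets_of_superset := by
    intro F G hF hFG τ hτ
    filter_upwards [hF τ hτ] with n hn
    obtain ⟨X, hX, h⟩ := hn
    exact ⟨X, hX, fun C hC => hFG (h C hC)⟩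
  inter_sets := by
    intro F G hF hG τ hτ
    filter_upwards [hF (τ / 2) (by positivity), hG (τ / 2) (by positivity)] with n h1 h2
    obtain ⟨X, hX, h⟩ := h1
    obtain ⟨Y, hY, h'⟩ := h2
    refine ⟨X ∪ Y, ?_, fun C hC => ⟨h C ?_, h' C ?_⟩⟩
    · have : ((X ∪ Y).card : ℝ) ≤ X.card + Y.card := by exact_mod_cast Finset.card_union_le X Y
      linarith
    · exact hC.mono_right Finset.subset_union_left
    · exact hC.mono_right Finset.subset_union_right

theorem mem_FF {F : Set I} : F ∈ FF ↔ ∀ τ : ℝ, 0 < τ → ∀ᶠ n : ℕ in atTop,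
    ∃ X : Finset (Fin (n + 1)), (X.card : ℝ) ≤ τ * (n + 1) ∧
      ∀ C : Om n, Disjoint C.1 X → (⟨n, C⟩ : I) ∈ F := Iff.rfl

theorem eventually_FF {p : I → Prop} : (∀ᶠ i in FF, p i) ↔ ∀ τ : ℝ, 0 < τ → ∀ᶠ n : ℕ in atTop,
    ∃ X : Finset (Fin (n + 1)), (X.card : ℝ) ≤ τ * (n + 1) ∧
      ∀ C : Om n, Disjoint C.1 X → p ⟨n, C⟩ := Iff.rfl

instance : NeBot FF := by
  rw [neBot_iff]
  intro h
  have h0 : (∅ : Set I) ∈ FF := by rw [h]; trivial
  obtain ⟨n, X, hX, h1⟩ := (h0 (1 / 2) (by norm_num)).exists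
  refine h1 ⟨Xᶜ, ?_⟩ disjoint_compl_left
  rw [Finset.card_compl, Fintype.card_fin]
  have h2 : (2 * X.card : ℝ) ≤ n + 1 := by linarith
  have h3 : 2 * X.card ≤ n + 1 := by exact_mod_cast h2
  omega

theorem eventually_FF_of_atTop {p : ℕ → Prop} (h : ∀ᶠ n in atTop, p n) :
    ∀ᶠ i in FF, p i.1 := by
  rw [eventually_FF]
  intro τ hτ
  filter_upwards [h] with n hn
  exact ⟨∅, by simp; positivity, fun _ _ => hn⟩

/-- The sets described by the residue class modulo `2 ^ m`. -/
def Cyl (m : ℕ) (G : Set ℕ) : Set D := {x | x.2.2.1 % 2 ^ m ∈ G}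

/-- The relative size of the set `Cyl m G`. -/
def cst (m : ℕ) (G : Set ℕ) : ℝ :=
  (∑ c ∈ Finset.range (2 ^ m), if c % 2 ^ m ∈ G then (1 : ℝ) else 0) / 2 ^ m

theorem cyl_count (m : ℕ) (G : Set ℕ) (k : ℕ) :
    (∑ c ∈ Finset.range (2 ^ (m + k)), if c % 2 ^ m ∈ G then (1 : ℝ) else 0) / 2 ^ (m + k) =
      cst m G := by
  induction k with
  | zero => rfl
  | succ k ih =>
    rw [← ih, ← add_assoc, pow_succ 2 (m + k), mul_two, Finset.sum_range_add]
    have h1 : ∀ c : ℕ, (2 ^ (m + k) + c) % 2 ^ m = c % 2 ^ m := by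
      intro c
      rw [pow_add, Nat.add_mod, Nat.mul_mod_right, zero_add, Nat.mod_mod]
    simp only [h1]
    rw [pow_succ (2 : ℝ)]
    field_simp
    ring

theorem dens_cyl {m : ℕ} {G : Set ℕ} {i : I} (h : m ≤ i.1) : dens (Cyl m G) i = cst m G := by
  obtain ⟨k, hk⟩ := Nat.exists_eq_add_of_le h
  rw [← cyl_count m G k, ← hk]
  unfold dens avg
  congr 1
  rw [← Fin.sum_univ_eq_sum_range (fun c => if c % 2 ^ m ∈ G then (1 : ℝ) else 0)]
  refine Finset.sum_congr rfl fun c _ => ?_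
  by_cases hc : (c : ℕ) % 2 ^ m ∈ G
  · rw [ind_mem (show (⟨i.1, i.2, c⟩ : D) ∈ Cyl m G from hc), if_pos hc]
  · rw [ind_not_mem (show (⟨i.1, i.2, c⟩ : D) ∉ Cyl m G from hc), if_neg hc]

theorem cst_singleton {m r : ℕ} : cst m {r} ≤ 1 / 2 ^ m := by
  unfold cst
  refine div_le_div_of_nonneg_right ?_ (by positivity)
  rw [Finset.sum_congr rfl (g := fun c => if c = r then (1 : ℝ) else 0), Finset.sum_ite_eq']
  · split_ifs <;> norm_num
  · intro c hc
    rw [Nat.mod_eq_of_lt (Finset.mem_range.1 hc)]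
    by_cases h : c = r
    · rw [if_pos h, if_pos (by rw [h]; rfl)]
    · rw [if_neg h, if_neg (by rwa [Set.mem_singleton_iff])]

theorem cyl_compl (m : ℕ) (G : Set ℕ) : (Cyl m G)ᶜ = Cyl m Gᶜ := rfl

theorem cyl_inter (m m' : ℕ) (G G' : Set ℕ) : Cyl m G ∩ Cyl m' G' =
    Cyl (m + m') {r | r % 2 ^ m ∈ G ∧ r % 2 ^ m' ∈ G'} := by
  ext x
  simp only [Cyl, Set.mem_inter_iff, Set.mem_setOf_eq]
  rw [Nat.mod_mod_of_dvd _ (pow_dvd_pow 2 (Nat.le_add_right m m')),
    Nat.mod_mod_of_dvd _ (pow_dvd_pow 2 (Nat.le_add_left m' m))]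

/-- The algebra of sets. -/
def Alg : Set (Set D) :=
  {A | ∀ ε : ℝ, 0 < ε → ∃ (m : ℕ) (G : Set ℕ), ∀ᶠ i in FF, dens (symmDiff A (Cyl m G)) i ≤ ε}

theorem cyl_mem (m : ℕ) (G : Set ℕ) : Cyl m G ∈ Alg := fun ε hε =>
  ⟨m, G, Eventually.of_forall fun i => by rw [symmDiff_self]; show dens ∅ i ≤ ε
                                          rw [dens_empty]; exact hε.le⟩

theorem compl_mem {A : Set D} (h : A ∈ Alg) : Aᶜ ∈ Alg := by
  intro ε hε
  obtain ⟨m, G, h1⟩ := h ε hε
  refine ⟨m, Gᶜ, ?_⟩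
  rw [← cyl_compl, compl_symmDiff_compl]
  exact h1

theorem inter_mem {A B : Set D} (hA : A ∈ Alg) (hB : B ∈ Alg) : A ∩ B ∈ Alg := by
  intro ε hε
  obtain ⟨m, G, h1⟩ := hA (ε / 2) (by positivity)
  obtain ⟨m', G', h2⟩ := hB (ε / 2) (by positivity)
  refine ⟨m + m', {r | r % 2 ^ m ∈ G ∧ r % 2 ^ m' ∈ G'}, ?_⟩
  rw [← cyl_inter m m' G G']
  filter_upwards [h1, h2] with i h1 h2
  refine (dens_le_add (B := symmDiff A (Cyl m G)) (C := symmDiff B (Cyl m' G')) ?_).trans
    (by linarith)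
  intro c hc
  simp only [Set.mem_symmDiff, Set.mem_inter_iff] at hc ⊢
  tauto

theorem union_mem {A B : Set D} (hA : A ∈ Alg) (hB : B ∈ Alg) : A ∪ B ∈ Alg := by
  have := compl_mem (inter_mem (compl_mem hA) (compl_mem hB))
  rwa [Set.compl_inter, compl_compl, compl_compl] at this

theorem diff_mem {A B : Set D} (hA : A ∈ Alg) (hB : B ∈ Alg) : A \ B ∈ Alg := by
  rw [Set.diff_eq]; exact inter_mem hA (compl_mem hB)

theorem small_mem {A : Set D} (h : ∀ ε : ℝ, 0 < ε → ∀ᶠ i in FF, dens A i ≤ ε) : A ∈ Alg := by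
  intro ε hε
  refine ⟨0, ∅, ?_⟩
  filter_upwards [h ε hε] with i hi
  refine (dens_mono ?_).trans hi
  intro c hc
  simp only [Set.mem_symmDiff, Cyl, Set.mem_empty_iff_false, Set.setOf_false, not_false_eq_true,
    and_true, false_and, or_false] at hc
  exact hc

theorem empty_mem : (∅ : Set D) ∈ Alg := small_mem fun ε hε =>
  Eventually.of_forall fun i => by rw [dens_empty]; exact hε.le

theorem univ_mem : (univ : Set D) ∈ Alg := by rw [← Set.compl_empty]; exact compl_mem empty_mem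

/-- Approximation of an element of the algebra by its relative sizes. -/
theorem abs_dens_sub_le {A B : Set D} (i : I) : |dens A i - dens B i| ≤ dens (symmDiff A B) i := by
  rw [abs_le]
  constructor
  · have := dens_le_add (A := B) (B := A) (C := symmDiff A B) (i := i) (fun c hc => by
      simp only [Set.mem_symmDiff]; tauto)
    linarith
  · have := dens_le_add (A := A) (B := B) (C := symmDiff A B) (i := i) (fun c hc => by
      simp only [Set.mem_symmDiff]; tauto)
    linarith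

theorem exists_lim {A : Set D} (h : A ∈ Alg) : ∃ l : ℝ, Tendsto (dens A) FF (𝓝 l) := by
  have hc : Cauchy (map (dens A) FF) := by
    rw [Metric.cauchy_iff]
    refine ⟨inferInstance, fun ε hε => ?_⟩
    obtain ⟨m, G, h1⟩ := h (ε / 3) (by positivity)
    refine ⟨Metric.closedBall (cst m G) (ε / 3), ?_, ?_⟩
    · rw [mem_map]
      filter_upwards [h1, eventually_FF_of_atTop (eventually_ge_atTop m)] with i h2 h3
      rw [mem_preimage, Metric.mem_closedBall, Real.dist_eq, ← dens_cyl h3]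
      exact (abs_dens_sub_le i).trans h2
    · intro x hx y hy
      have := dist_triangle_right x y (cst m G)
      rw [Metric.mem_closedBall] at hx hy
      linarith
  obtain ⟨l, hl⟩ := CompleteSpace.complete hc
  exact ⟨l, hl⟩

end Q100.Bm
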