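import Pool.Agent.Q100.Bm.Space

/-!
# Baire measurability
-/

set_option autoImplicit false
open Filter Topology Set MeasureTheory

noncomputable section

namespace Q100.Bm

open Q100.SeqCl

/-- The topology of pointwise convergence on `C(K)`. -/
def pointwiseTopology (K : Type*) [TopologicalSpace K] : TopologicalSpace C(K, ℝ) :=
  TopologicalSpace.induced (fun f : C(K, ℝ) => (f : K → ℝ)) inferInstance

/-- The Baire `σ`-algebra of a topological space: the smallest `σ`-algebra for which all continuous
real functions are measurable. -/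
def baire (X : Type*) (t : TopologicalSpace X) : MeasurableSpace X :=
  ⨆ g : {g : X → ℝ // Continuous[t, inferInstance] g}, MeasurableSpace.comap g.1 (borel ℝ)

/-- `Ba(C_p(K))`. -/
def baireCp (K : Type*) [TopologicalSpace K] : MeasurableSpace C(K, ℝ) :=
  baire C(K, ℝ) (pointwiseTopology K)

theorem measurable_eval {K : Type*} [TopologicalSpace K] (x : K) :
    Measurable[baireCp K] fun f : C(K, ℝ) => f x := by
  have h1 : Continuous[pointwiseTopology K, inferInstance] fun f : C(K, ℝ) => f x := by
    letI := pointwiseTopology K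
    exact (continuous_apply x).comp continuous_induced_dom
  have h2 : MeasurableSpace.comap (fun f : C(K, ℝ) => f x) (borel ℝ) ≤ baireCp K :=
    le_iSup (fun g : {g : C(K, ℝ) → ℝ // Continuous[pointwiseTopology K, inferInstance] g} =>
      MeasurableSpace.comap g.1 (borel ℝ)) ⟨_, h1⟩
  rw [← BorelSpace.measurable_eq (α := ℝ)] at h2
  exact measurable_iff_comap_le.2 h2

theorem measurable_avg (i : I) : Measurable[baireCp K] fun f : C(K, ℝ) => avg (tr f) i := by
  letI := baireCp K
  unfold avg
  refine Measurable.div_const (Finset.measurable_sum _ fun c _ => ?_) _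
  exact measurable_eval (K := K) _

theorem measurable_mu : Measurable[baireCp K] fun f : C(K, ℝ) => mu f := by
  letI := baireCp K
  refine measurable_of_Iic fun t => ?_
  have h1 : (fun f : C(K, ℝ) => mu f) ⁻¹' Iic t =
      {f | ∀ k : ℕ, ∀ m : ℕ, ∃ n₀ : ℕ, ∀ n, n₀ ≤ n → ∃ X : Finset (Fin (n + 1)),
        (X.card : ℝ) ≤ (1 / ((m : ℝ) + 1)) * (n + 1) ∧ ∀ C : Om n, Disjoint C.1 X →
          avg (tr f) ⟨n, C⟩ ≤ t + 1 / ((k : ℝ) + 1)} := by
    ext f
    rw [mem_preimage, mem_Iic, mem_setOf_eq, mu_apply]
    constructor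
    · intro h k m
      have h2 : ∀ᶠ i in FF, avg (tr f) i < t + 1 / ((k : ℝ) + 1) :=
        (tendsto_L f).eventually_lt_const (by
          have : (0 : ℝ) < 1 / ((k : ℝ) + 1) := by positivity
          linarith)
      obtain ⟨n₀, hn₀⟩ := eventually_atTop.1 (eventually_FF.1 h2 (1 / ((m : ℝ) + 1)) (by positivity))
      refine ⟨n₀, fun n hn => ?_⟩
      obtain ⟨X, hX, h3⟩ := hn₀ n hn
      exact ⟨X, hX, fun C hC => (h3 C hC).le⟩
    · intro h
      refine le_of_forall_pos_le_add fun ε hε => ?_
      obtain ⟨k, hk⟩ := exists_nat_one_div_lt hε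
      refine (le_of_tendsto (tendsto_L f) (b := t + 1 / ((k : ℝ) + 1)) ?_).trans (by linarith)
      rw [eventually_FF]
      intro τ hτ
      obtain ⟨m, hm⟩ := exists_nat_one_div_lt hτ
      obtain ⟨n₀, hn₀⟩ := h k m
      filter_upwards [eventually_ge_atTop n₀] with n hn
      obtain ⟨X, hX, h3⟩ := hn₀ n hn
      refine ⟨X, hX.trans ?_, h3⟩
      gcongr
  rw [h1]
  refine measurableSet_setOf.2 ?_
  refine Measurable.forall fun k => Measurable.forall fun m => Measurable.exists fun n₀ =>
    Measurable.forall fun n => Measurable.imp measurable_const ?_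
  refine Measurable.exists fun X => Measurable.and measurable_const ?_
  refine Measurable.forall fun C => Measurable.imp measurable_const ?_
  exact measurableSet_setOf.1 (measurableSet_le (measurable_avg _) measurable_const)

end Q100.Bm
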