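import Pool.Agent.Q100.Bm.Clos
import Pool.Agent.Q100.SeqDefs

/-!
# The compact space of the algebra, and the measure
-/

set_option autoImplicit false
open Filter Topology Set MeasureTheory

noncomputable section

open scoped Classical

namespace Q100.Bm

open Q100.SeqCl

/-- The elements of the algebra. -/
abbrev AlgT : Type := {A : Set D // A ∈ Alg}

/-- The Boolean homomorphisms of the algebra into `{0, 1}`. -/
def KSet : Set (AlgT → Bool) :=
  {k | (∀ A B : AlgT, k ⟨A.1 ∩ B.1, inter_mem A.2 B.2⟩ = (k A && k B)) ∧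
    ∀ A : AlgT, k ⟨A.1ᶜ, compl_mem A.2⟩ = !(k A)}

/-- The compact space. -/
abbrev K : Type := KSet

theorem isClosed_KSet : IsClosed KSet := by
  have h1 : KSet = (⋂ (A : AlgT) (B : AlgT), {k | k ⟨A.1 ∩ B.1, inter_mem A.2 B.2⟩ =
      (k A && k B)}) ∩ ⋂ (A : AlgT), {k | k ⟨A.1ᶜ, compl_mem A.2⟩ = !(k A)} := by
    ext k; simp [KSet]
  rw [h1]
  refine IsClosed.inter (isClosed_iInter fun A => isClosed_iInter fun B => ?_)
    (isClosed_iInter fun A => ?_)
  · have h2 : Continuous fun p : Bool × Bool => (p.1 && p.2) := continuous_of_discreteTopology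
    have h3 : Continuous fun k : AlgT → Bool => (k A, k B) :=
      (continuous_apply A).prodMk (continuous_apply B)
    have h4 : Continuous fun k : AlgT → Bool => (k A && k B) := h2.comp h3
    exact isClosed_eq (continuous_apply _) h4
  · have h2 : Continuous fun p : Bool => !p := continuous_of_discreteTopology
    exact isClosed_eq (continuous_apply _) (h2.comp (continuous_apply A))

instance : CompactSpace K := isCompact_iff_compactSpace.1 isClosed_KSet.isCompact

instance : MeasurableSpace K := borel K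

instance : BorelSpace K := ⟨rfl⟩

/-- The points of the countable set. -/
def pt (x : D) : K := ⟨fun A => decide (x ∈ A.1), by
  constructor
  · intro A B; simp [Set.mem_inter_iff]
  · intro A; simp [Set.mem_compl_iff]⟩

theorem k_inter (k : K) {A B : Set D} (hA : A ∈ Alg) (hB : B ∈ Alg) :
    k.1 ⟨A ∩ B, inter_mem hA hB⟩ = (k.1 ⟨A, hA⟩ && k.1 ⟨B, hB⟩) := k.2.1 ⟨A, hA⟩ ⟨B, hB⟩

theorem k_compl (k : K) {A : Set D} (hA : A ∈ Alg) :
    k.1 ⟨Aᶜ, compl_mem hA⟩ = !(k.1 ⟨A, hA⟩) := k.2.2 ⟨A, hA⟩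

theorem k_congr (k : K) {A B : Set D} (h : A = B) (hA : A ∈ Alg) (hB : B ∈ Alg) :
    k.1 ⟨A, hA⟩ = k.1 ⟨B, hB⟩ := by subst h; rfl

theorem k_empty (k : K) : k.1 ⟨∅, empty_mem⟩ = false := by
  have h1 := k_inter k empty_mem (compl_mem empty_mem)
  rw [k_compl k empty_mem,
    k_congr k (show (∅ : Set D) ∩ (∅ : Set D)ᶜ = ∅ by simp) _ empty_mem] at h1
  rw [h1]; simp

theorem k_univ (k : K) : k.1 ⟨univ, univ_mem⟩ = true := by
  have h1 := k_compl k empty_mem
  rw [k_congr k (show (∅ : Set D)ᶜ = univ by simp) _ univ_mem, k_empty] at h1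
  rw [h1]; rfl

theorem k_union (k : K) {A B : Set D} (hA : A ∈ Alg) (hB : B ∈ Alg) :
    k.1 ⟨A ∪ B, union_mem hA hB⟩ = (k.1 ⟨A, hA⟩ || k.1 ⟨B, hB⟩) := by
  have h1 := k_compl k (inter_mem (compl_mem hA) (compl_mem hB))
  rw [k_inter k (compl_mem hA) (compl_mem hB), k_compl k hA, k_compl k hB,
    k_congr k (show (Aᶜ ∩ Bᶜ)ᶜ = A ∪ B by simp [Set.compl_inter]) _ (union_mem hA hB)] at h1
  rw [h1]; cases k.1 ⟨A, hA⟩ <;> cases k.1 ⟨B, hB⟩ <;> rfl

/-- The indicator function of the clopen set of an element of the algebra. -/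
def indK (A : AlgT) : C(K, ℝ) where
  toFun k := if k.1 A = true then 1 else 0
  continuous_toFun :=
    (continuous_of_discreteTopology (f := fun b : Bool => if b = true then (1 : ℝ) else 0)).comp
      ((continuous_apply A).comp continuous_subtype_val)

theorem indK_apply (A : AlgT) (k : K) : indK A k = if k.1 A = true then 1 else 0 := rfl

theorem indK_nonneg (A : AlgT) : 0 ≤ indK A := fun k => by
  show (0 : ℝ) ≤ indK A k
  rw [indK_apply]; split_ifs <;> simp

theorem indK_pt (A : AlgT) (x : D) : indK A (pt x) = ind A.1 x := by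
  rw [indK_apply]
  by_cases h : x ∈ A.1
  · rw [ind_mem h, if_pos]; simpa [pt] using h
  · rw [ind_not_mem h, if_neg]; simpa [pt] using h

theorem indK_univ : indK ⟨univ, univ_mem⟩ = 1 := by
  ext k; rw [indK_apply, k_univ]; simp

theorem indK_mul (A B : AlgT) : indK A * indK B = indK ⟨A.1 ∩ B.1, inter_mem A.2 B.2⟩ := by
  ext k
  rw [ContinuousMap.mul_apply, indK_apply, indK_apply, indK_apply, k_inter k A.2 B.2]
  cases k.1 A <;> cases k.1 B <;> simp

theorem indK_union {A B : AlgT} (h : Disjoint A.1 B.1) :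
    indK ⟨A.1 ∪ B.1, union_mem A.2 B.2⟩ = indK A + indK B := by
  ext k
  have h1 : (k.1 A && k.1 B) = false := by
    have h2 := k_inter k A.2 B.2
    rw [k_congr k h.inter_eq _ empty_mem, k_empty] at h2
    exact h2.symm
  rw [ContinuousMap.add_apply, indK_apply, indK_apply, indK_apply, k_union k A.2 B.2]
  cases hA : k.1 A <;> cases hB : k.1 B <;> simp_all

theorem indK_compl (A : AlgT) : indK ⟨A.1ᶜ, compl_mem A.2⟩ = 1 - indK A := by
  ext k
  rw [ContinuousMap.sub_apply, indK_apply, indK_apply, k_compl k A.2]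
  cases k.1 A <;> simp

/-- Positive functionals. -/
def Pos (φ : MK K) : Prop := ∀ f : C(K, ℝ), 0 ≤ f → 0 ≤ φ f

/-- The set function of a functional. -/
def sf (φ : MK K) (A : Set D) : ℝ := if h : A ∈ Alg then φ (indK ⟨A, h⟩) else 0

theorem sf_mem (φ : MK K) {A : Set D} (h : A ∈ Alg) : sf φ A = φ (indK ⟨A, h⟩) := dif_pos h

theorem FA_sf {φ : MK K} (h : Pos φ) : FA (sf φ) where
  nonneg A hA := by rw [sf_mem φ hA]; exact h _ (indK_nonneg _)
  add A hA B hB hd := by
    rw [sf_mem φ hA, sf_mem φ hB, sf_mem φ (union_mem hA hB),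
      ← map_add, ← indK_union (A := ⟨A, hA⟩) (B := ⟨B, hB⟩) hd]

/-- The positive functionals which are singular. -/
def SS : Set (MK K) := {φ | Pos φ ∧ Sing (sf φ)}

theorem seq_SS : Seq SS ⊆ SS := by
  rintro φ ⟨s, hs, hlim⟩
  have hpos : Pos φ := fun f hf =>
    ge_of_tendsto (hlim f) (Eventually.of_forall fun n => (hs n).1 f hf)
  refine ⟨hpos, sing_limit (fun n => sf (s n)) (sf φ) (fun n => FA_sf (hs n).1) (FA_sf hpos)
    (fun n => (hs n).2) ?_⟩
  intro A hA
  simp only [sf_mem _ hA]
  exact hlim _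

theorem seqIter_subset {A : Set (MK K)} (h : A ⊆ SS) (α : Ordinal) : SeqIter A α ⊆ SS := by
  induction α using Ordinal.limitRecOn with
  | zero => rw [seqIter_zero]; exact h
  | add_one α ih =>
    rw [seqIter_add_one]
    rintro φ ⟨s, hs, hlim⟩
    exact seq_SS ⟨s, fun n => ih (hs n), hlim⟩
  | limit α hα ih =>
    rw [seqIter_limit _ _ hα]
    exact Set.iUnion₂_subset fun β hβ => ih β hβ

/-- Points have small neighbourhoods. -/
theorem exists_small (k : K) (ε : ℝ) (hε : 0 < ε) :
    ∃ A : AlgT, k.1 A = true ∧ ∀ᶠ i in FF, dens A.1 i ≤ ε := by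
  obtain ⟨m, hm⟩ := exists_pow_lt_of_lt_one hε (show (1 / 2 : ℝ) < 1 by norm_num)
  have h1 : ∀ N : ℕ, (⋃ r ∈ Finset.range N, Cyl m {r}) ∈ Alg := by
    intro N
    induction N with
    | zero => simpa using empty_mem
    | succ N ih =>
      rw [Finset.range_add_one, Finset.set_biUnion_insert]
      exact union_mem (cyl_mem _ _) ih
  have h2 : ∀ N : ℕ, k.1 ⟨_, h1 N⟩ = true → ∃ r, k.1 ⟨Cyl m {r}, cyl_mem _ _⟩ = true := by
    intro N
    induction N with
    | zero =>
      intro h
      rw [k_congr k (by simp) _ empty_mem, k_empty] at h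
      exact absurd h (by simp)
    | succ N ih =>
      intro h
      rw [k_congr k (show (⋃ r ∈ Finset.range (N + 1), Cyl m {r}) =
          Cyl m {N} ∪ ⋃ r ∈ Finset.range N, Cyl m {r} by
            rw [Finset.range_add_one, Finset.set_biUnion_insert]) _
          (union_mem (cyl_mem _ _) (h1 N)), k_union k (cyl_mem _ _) (h1 N),
        Bool.or_eq_true] at h
      rcases h with h | h
      · exact ⟨N, h⟩
      · exact ih h
  obtain ⟨r, hr⟩ := h2 (2 ^ m) (by
    have h3 : (⋃ r ∈ Finset.range (2 ^ m), Cyl m {r}) = univ := by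
      rw [Set.eq_univ_iff_forall]
      intro x
      refine Set.mem_biUnion (x := x.2.2.1 % 2 ^ m) ?_ rfl
      exact Finset.mem_coe.2 (Finset.mem_range.2 (Nat.mod_lt _ (by positivity)))
    rw [k_congr k h3 _ univ_mem]; exact k_univ k)
  refine ⟨_, hr, ?_⟩
  filter_upwards [eventually_FF_of_atTop (eventually_ge_atTop m)] with i hi
  rw [dens_cyl hi]
  refine cst_singleton.trans ?_
  rw [div_pow, one_pow] at hm
  exact hm.le

theorem dirac_mem (k : K) : dirac k ∈ SS := by
  refine ⟨fun f hf => hf k, fun ε hε => ?_⟩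
  obtain ⟨A, hA, h⟩ := exists_small k ε hε
  refine ⟨A.1, A.2, h, ?_⟩
  rw [sf_mem _ (compl_mem A.2), indK_compl]
  show (1 - indK A) k ≤ ε
  rw [ContinuousMap.sub_apply, ContinuousMap.one_apply, indK_apply, if_pos hA]
  linarith

theorem convex_SS : Convex ℝ SS := by
  intro φ hφ ψ hψ a b ha hb hab
  refine ⟨fun f hf => ?_, fun ε hε => ?_⟩
  · have h1 := mul_nonneg ha (hφ.1 f hf)
    have h2 := mul_nonneg hb (hψ.1 f hf)
    show 0 ≤ a * φ f + b * ψ f
    linarith
  · obtain ⟨A, hA, h1, h2⟩ := hφ.2 (ε / 2) (by positivity)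
    obtain ⟨B, hB, h3, h4⟩ := hψ.2 (ε / 2) (by positivity)
    refine ⟨A ∪ B, union_mem hA hB, ?_, ?_⟩
    · filter_upwards [h1, h3] with i h1 h3
      exact (dens_le_add (B := A) (C := B) fun c hc => hc).trans (by linarith)
    · have h5 := (FA_sf hφ.1).mono (compl_mem (union_mem hA hB)) (compl_mem hA)
        (Set.compl_subset_compl.2 Set.subset_union_left)
      have h6 := (FA_sf hψ.1).mono (compl_mem (union_mem hA hB)) (compl_mem hB)
        (Set.compl_subset_compl.2 Set.subset_union_right)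
      have h7 : sf (a • φ + b • ψ) (A ∪ B)ᶜ = a * sf φ (A ∪ B)ᶜ + b * sf ψ (A ∪ B)ᶜ := by
        rw [sf_mem _ (compl_mem (union_mem hA hB)), sf_mem _ (compl_mem (union_mem hA hB)),
          sf_mem _ (compl_mem (union_mem hA hB))]
        rfl
      rw [h7]
      nlinarith

theorem coDelta_subset : coDelta K ⊆ SS := by
  refine convexHull_min ?_ convex_SS
  rintro _ ⟨k, rfl⟩
  exact dirac_mem k

/-- The values of a function at the points of the countable set. -/
def tr (f : C(K, ℝ)) (x : D) : ℝ := f (pt x)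

theorem avg_smul (r : ℝ) (f : D → ℝ) (i : I) : avg (fun x => r * f x) i = r * avg f i := by
  unfold avg; rw [← Finset.mul_sum, mul_div_assoc]

theorem abs_avg_sub_le {f g : D → ℝ} {ε : ℝ} (h : ∀ x, |f x - g x| ≤ ε) (i : I) :
    |avg f i - avg g i| ≤ ε := by
  have h1 : avg f i - avg g i = avg (fun x => f x - g x) i := by
    unfold avg; rw [Finset.sum_sub_distrib, sub_div]
  rw [h1, abs_le]
  constructor
  · rw [← avg_const (-ε) i]; exact avg_mono fun c => (abs_le.1 (h _)).1
  · rw [← avg_const ε i]; exact avg_mono fun c => (abs_le.1 (h _)).2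

/-- The simple functions. -/
def simp' : Submodule ℝ C(K, ℝ) := Submodule.span ℝ (Set.range indK)

theorem lim_simp {f : C(K, ℝ)} (hf : f ∈ simp') : ∃ l : ℝ, Tendsto (avg (tr f)) FF (𝓝 l) := by
  induction hf using Submodule.span_induction with
  | mem f hf =>
    obtain ⟨A, rfl⟩ := hf
    obtain ⟨l, hl⟩ := exists_lim A.2
    refine ⟨l, hl.congr fun i => ?_⟩
    unfold dens
    congr 1
    funext x
    exact (indK_pt A x).symm
  | zero => exact ⟨0, by
      have : avg (tr 0) = fun _ => 0 := by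
        funext i
        show avg (fun _ => (0 : ℝ)) i = 0
        exact avg_const 0 i
      rw [this]; exact tendsto_const_nhds⟩
  | add f g _ _ h1 h2 =>
    obtain ⟨l, hl⟩ := h1
    obtain ⟨l', hl'⟩ := h2
    refine ⟨l + l', (hl.add hl').congr fun i => ?_⟩
    rw [← avg_add]; rfl
  | smul a f _ h1 =>
    obtain ⟨l, hl⟩ := h1
    refine ⟨a * l, (hl.const_mul a).congr fun i => ?_⟩
    rw [← avg_smul]; rfl

theorem dense_simp (f : C(K, ℝ)) (ε : ℝ) (hε : 0 < ε) : ∃ g ∈ simp', ‖f - g‖ < ε := by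
  set S : Subalgebra ℝ C(K, ℝ) := Algebra.adjoin ℝ (Set.range indK) with hS
  have h1 : (S : Set C(K, ℝ)) ⊆ simp' := by
    intro g hg
    have h2 : g ∈ Subalgebra.toSubmodule S := hg
    rw [hS, Algebra.adjoin_eq_span] at h2
    refine Submodule.span_mono ?_ h2
    intro g hg
    induction hg using Submonoid.closure_induction with
    | mem x hx => exact hx
    | one => exact ⟨_, indK_univ⟩
    | mul x y _ _ hx hy =>
      obtain ⟨A, rfl⟩ := hx
      obtain ⟨B, rfl⟩ := hy
      exact ⟨_, (indK_mul A B).symm⟩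
  have hsep : S.SeparatesPoints := by
    intro k k' hne
    have h3 : ∃ A, k.1 A ≠ k'.1 A := by
      by_contra hcon
      push Not at hcon
      exact hne (Subtype.ext (funext hcon))
    obtain ⟨A, hA⟩ := h3
    refine ⟨_, ⟨indK A, Algebra.subset_adjoin ⟨A, rfl⟩, rfl⟩, ?_⟩
    show indK A k ≠ indK A k'
    rw [indK_apply, indK_apply]
    intro h
    apply hA
    cases h4 : k.1 A <;> cases h5 : k'.1 A <;> simp_all
  have h4 := ContinuousMap.subalgebra_topologicalClosure_eq_top_of_separatesPoints S hsep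
  have h5 : f ∈ closure (S : Set C(K, ℝ)) := by
    rw [← Subalgebra.topologicalClosure_coe, h4]; trivial
  obtain ⟨g, hg, hfg⟩ := Metric.mem_closure_iff.1 h5 ε hε
  exact ⟨g, h1 hg, by rwa [← dist_eq_norm]⟩

theorem lim_all (f : C(K, ℝ)) : ∃ l : ℝ, Tendsto (avg (tr f)) FF (𝓝 l) := by
  have hc : Cauchy (map (avg (tr f)) FF) := by
    rw [Metric.cauchy_iff]
    refine ⟨inferInstance, fun ε hε => ?_⟩
    obtain ⟨g, hg, hfg⟩ := dense_simp f (ε / 4) (by positivity)
    obtain ⟨l, hl⟩ := lim_simp hg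
    refine ⟨Metric.closedBall l (ε / 2 - ε / 8), ?_, ?_⟩
    · rw [mem_map]
      filter_upwards [Metric.tendsto_nhds.1 hl (ε / 8) (by positivity)] with i hi
      rw [mem_preimage, Metric.mem_closedBall]
      have h1 : |avg (tr f) i - avg (tr g) i| ≤ ε / 4 := by
        refine abs_avg_sub_le (fun x => ?_) i
        have h2 := (f - g).norm_coe_le_norm (pt x)
        rw [Real.norm_eq_abs] at h2
        exact h2.trans hfg.le
      rw [← Real.dist_eq] at h1
      have := dist_triangle (avg (tr f) i) (avg (tr g) i) l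
      linarith
    · intro x hx y hy
      have := dist_triangle_right x y l
      rw [Metric.mem_closedBall] at hx hy
      linarith
  obtain ⟨l, hl⟩ := CompleteSpace.complete hc
  exact ⟨l, hl⟩

/-- The limit of the means. -/
def L (f : C(K, ℝ)) : ℝ := (lim_all f).choose

theorem tendsto_L (f : C(K, ℝ)) : Tendsto (avg (tr f)) FF (𝓝 (L f)) := (lim_all f).choose_spec

/-- The measure, as a functional. -/
def mu : MK K := LinearMap.mkContinuous
  { toFun := L
    map_add' := fun f g => tendsto_nhds_unique (tendsto_L (f + g))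
      (((tendsto_L f).add (tendsto_L g)).congr fun i => by rw [← avg_add]; rfl)
    map_smul' := fun a f => tendsto_nhds_unique (tendsto_L (a • f))
      (((tendsto_L f).const_mul a).congr fun i => by rw [← avg_smul]; rfl) } 1 (by
  intro f
  rw [one_mul]
  refine le_of_tendsto (tendsto_L f).norm (Eventually.of_forall fun i => ?_)
  have h1 := abs_avg_sub_le (f := tr f) (g := fun _ => 0) (ε := ‖f‖) (fun x => by
    rw [sub_zero, ← Real.norm_eq_abs]; exact f.norm_coe_le_norm _) i
  rw [avg_const, sub_zero] at h1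
  exact h1)

theorem mu_apply (f : C(K, ℝ)) : mu f = L f := rfl

theorem mu_pos : Pos mu := fun f hf =>
  ge_of_tendsto (tendsto_L f) (Eventually.of_forall fun i => avg_nonneg fun c => hf _)

theorem mu_one : mu 1 = 1 := tendsto_nhds_unique (tendsto_L 1) (by
  have : avg (tr 1) = fun _ => 1 := by
    funext i
    show avg (fun _ => (1 : ℝ)) i = 1
    exact avg_const 1 i
  rw [this]; exact tendsto_const_nhds)

theorem mu_not_mem : mu ∉ SS := by
  rintro ⟨_, h⟩
  obtain ⟨A, hA, h1, h2⟩ := h (1 / 3) (by norm_num)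
  rw [sf_mem _ (compl_mem hA), indK_compl ⟨A, hA⟩, map_sub, mu_one] at h2
  have h3 : mu (indK ⟨A, hA⟩) ≤ 1 / 3 := by
    refine le_of_tendsto (tendsto_L _) ?_
    filter_upwards [h1] with i hi
    refine le_trans (le_of_eq ?_) hi
    unfold dens
    congr 1
    funext x
    exact indK_pt ⟨A, hA⟩ x
  linarith

/-- Riesz representation. -/
theorem exists_measure : ∃ m : Measure K, IsProbabilityMeasure m ∧ m.Regular ∧
    Represents m mu := by
  let j : CompactlySupportedContinuousMap K ℝ →ₗ[ℝ] C(K, ℝ) :=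
    { toFun := fun f => f.toContinuousMap
      map_add' := fun f h => rfl
      map_smul' := fun c f => rfl }
  let Λ : CompactlySupportedContinuousMap K ℝ →ₚ[ℝ] ℝ :=
    PositiveLinearMap.mk₀ ((mu : C(K, ℝ) →ₗ[ℝ] ℝ) ∘ₗ j) (fun f hf => mu_pos _ (fun x => hf x))
  let m := RealRMK.rieszMeasure Λ
  have hint : ∀ f : C(K, ℝ), ∫ x, f x ∂m = mu f := by
    intro f
    have := RealRMK.integral_rieszMeasure Λ (CompactlySupportedContinuousMap.continuousMapEquiv f)
    exact this
  have hreg : m.Regular := inferInstance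
  have hfin : IsFiniteMeasure m := inferInstance
  have hprob : IsProbabilityMeasure m := by
    have h1 := hint 1
    rw [mu_one] at h1
    simp only [ContinuousMap.one_apply, integral_const, smul_eq_mul, mul_one] at h1
    exact ⟨by
      rw [Measure.real, ENNReal.toReal_eq_one_iff] at h1
      exact h1⟩
  exact ⟨m, hprob, hreg, fun f => (hint f).symm⟩

end Q100.Bm
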